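import Pool.Agent.H.MP_bb4c62_an.QP.Rich
import Pool.Agent.H.MP_bb4c62_an.QP.Trans

/-!
# Module QT/Good: what is needed of the relation `Prp k` on a space, in every dimension
-/

namespace Pool.Agent.H.MP_bb4c62_an.QT

open Pool.Agent.H.MP_bb4c62_an.helper6.NL
open Pool.Agent.H.MP_bb4c62_an.helper6.Perturb
open Pool.Agent.H.MP_bb4c62_an.helper6.Gadgets
open Pool.Agent.H.MP_bb4c62_an.QP

variable {X : Type*} [NormedAddCommGroup X] [NormedSpace ℂ X]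
variable {Y : Type*} [NormedAddCommGroup Y] [NormedSpace ℂ Y]

/-- the properties of the relation `Prp k` which are used -/
structure Good (X : Type*) [NormedAddCommGroup X] [NormedSpace ℂ X] (k : ℕ) : Prop where
  zero : ∀ T : X →L[ℂ] X, (∀ S, Prp k T S) ↔ T = 0
  par : ∀ T S : X →L[ℂ] X, T ≠ 0 → S ≠ 0 → (∀ R, Prp k T R ↔ Prp k S R) → ∃ c : ℂ, S = c • T
  adj : ∀ ℓ : Set (X →L[ℂ] X), HLine k ℓ → ∀ A ∈ ℓ, ∀ B ∈ ℓ, (¬ ∃ c : ℂ, B = c • A) → Adj A B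
  line : ∀ A B : X →L[ℂ] X, A ≠ 0 → B ≠ 0 → (¬ ∃ c : ℂ, B = c • A) → Adj A B →
    ∃ ℓ, HLine k ℓ ∧ A ∈ ℓ ∧ B ∈ ℓ
  self : ∀ (x : X) (f : X →L[ℂ] ℂ), Prp k (ten x f) (ten x f) ↔ f x = 0
  ten : ∀ (T : X →L[ℂ] X) (x : X) (f : X →L[ℂ] ℂ), f x ≠ 0 →
    (Prp k T (ten x f) ↔ f (T x) = 0)

theorem good_of_rich [CompleteSpace X] {k : ℕ} (h : Rich X k) : Good X k where
  zero := Trans_zero h
  par := fun T S _ _ hTS => (Trans_par h T S).mp fun R hR => (hTS R).mp hR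
  adj := fun _ hℓ _ hA _ hB hAB => hline_adj h hℓ hA hB hAB
  line := fun _ _ hA hB hAB hadj => Trans_line h hA hB hAB hadj
  self := h.self
  ten := h.ten

theorem Good_zero [CompleteSpace X] [CompleteSpace Y] {k : ℕ} (hX : Good X k)
    (hY : Good Y k) {φ : (X →L[ℂ] X) → (Y →L[ℂ] Y)} (h : Pres k φ) (T : X →L[ℂ] X) :
    φ T = 0 ↔ T = 0 := by
  rw [← hY.zero, ← hX.zero]
  constructor
  · intro h1 S
    exact (h.iff T S).mp (h1 (φ S))
  · intro h1 S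
    obtain ⟨S, rfl⟩ := h.surj S
    exact (h.iff T S).mpr (h1 S)

theorem Good_par [CompleteSpace X] [CompleteSpace Y] {k : ℕ} (hX : Good X k)
    (hY : Good Y k) {φ : (X →L[ℂ] X) → (Y →L[ℂ] Y)} (h : Pres k φ) (T S : X →L[ℂ] X) :
    (∃ c : ℂ, φ S = c • φ T) ↔ ∃ c : ℂ, S = c • T := by
  by_cases hS : S = 0
  · refine iff_of_true ⟨0, ?_⟩ ⟨0, ?_⟩
    · rw [zero_smul]
      exact (Good_zero hX hY h S).mpr hS
    · rw [zero_smul, hS]
  have hS' : φ S ≠ 0 := fun h1 => hS ((Good_zero hX hY h S).mp h1)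
  constructor
  · rintro ⟨c, hc⟩
    have hc0 : c ≠ 0 := by
      rintro rfl
      rw [zero_smul] at hc
      exact hS' hc
    have hT' : φ T ≠ 0 := by
      intro h1
      rw [h1, smul_zero] at hc
      exact hS' hc
    refine hX.par T S (fun h1 => hT' ((Good_zero hX hY h T).mpr h1)) hS fun R => ?_
    rw [← h.iff T R, ← h.iff S R, hc]
    exact (Trans_smul_iff hc0).symm
  · rintro ⟨c, hc⟩
    have hc0 : c ≠ 0 := by
      rintro rfl
      rw [zero_smul] at hc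
      exact hS hc
    have hT : T ≠ 0 := by
      intro h1
      rw [h1, smul_zero] at hc
      exact hS hc
    refine hY.par (φ T) (φ S) (fun h1 => hT ((Good_zero hX hY h T).mp h1)) hS' fun R => ?_
    obtain ⟨R, rfl⟩ := h.surj R
    rw [h.iff T R, h.iff S R, hc]
    exact (Trans_smul_iff hc0).symm

theorem Good_pre [CompleteSpace X] [CompleteSpace Y] {k : ℕ} (hX : Good X k)
    (hY : Good Y k) {φ : (X →L[ℂ] X) → (Y →L[ℂ] Y)} (h : Pres k φ) {ℓ : Set (Y →L[ℂ] Y)}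
    (hℓ : HLine k ℓ) : HLine k (φ ⁻¹' ℓ) where
  two := by
    obtain ⟨A, hA, B, hB, hAB⟩ := hℓ.two
    obtain ⟨A, rfl⟩ := h.surj A
    obtain ⟨B, rfl⟩ := h.surj B
    exact ⟨A, hA, B, hB, fun h1 => hAB ((Good_par hX hY h A B).mpr h1)⟩
  gen := by
    intro A hA B hB hAB C
    have h1 := hℓ.gen (φ A) hA (φ B) hB (fun h1 => hAB ((Good_par hX hY h A B).mp h1)) (φ C)
    rw [h.dep_iff, Ne, Good_zero hX hY h] at h1
    exact h1
  meet := by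
    intro S
    obtain ⟨U, hU, hUS⟩ := hℓ.meet (φ S)
    obtain ⟨U, rfl⟩ := h.surj U
    exact ⟨U, hU, (h.iff U S).mp hUS⟩

theorem Good_im [CompleteSpace X] [CompleteSpace Y] {k : ℕ} (hX : Good X k)
    (hY : Good Y k) {φ : (X →L[ℂ] X) → (Y →L[ℂ] Y)} (h : Pres k φ) {ℓ : Set (X →L[ℂ] X)}
    (hℓ : HLine k ℓ) :
    HLine k {T' : Y →L[ℂ] Y | T' ≠ 0 ∧ ∃ V ∈ ℓ, ∃ c : ℂ, T' = c • φ V} where
  two := by
    obtain ⟨A, hA, B, hB, hAB⟩ := hℓ.two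
    refine ⟨φ A, ⟨?_, A, hA, 1, by rw [one_smul]⟩, φ B, ⟨?_, B, hB, 1, by rw [one_smul]⟩,
      fun h1 => hAB ((Good_par hX hY h A B).mp h1)⟩
    · rw [Ne, Good_zero hX hY h]
      exact HLine_ne hℓ hA
    · rw [Ne, Good_zero hX hY h]
      exact HLine_ne hℓ hB
  gen := by
    rintro A' ⟨hA0, A, hA, a, rfl⟩ B' ⟨hB0, B, hB, b, rfl⟩ hAB C'
    have ha : a ≠ 0 := by
      rintro rfl
      exact hA0 (zero_smul _ _)
    have hb : b ≠ 0 := by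
      rintro rfl
      exact hB0 (zero_smul _ _)
    have hAB' : ¬ ∃ c : ℂ, B = c • A := by
      intro h1
      obtain ⟨c, hc⟩ := (Good_par hX hY h A B).mpr h1
      apply hAB
      refine ⟨b * c * a⁻¹, ?_⟩
      rw [hc, smul_smul, smul_smul, mul_assoc _ a⁻¹, inv_mul_cancel₀ ha, mul_one]
    obtain ⟨C, rfl⟩ := h.surj C'
    have hdep : Dep k (a • φ A) (b • φ B) (φ C) ↔ Dep k A B C := by
      rw [← h.dep_iff A B C]
      constructor
      · intro h1 R h2 h3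
        exact h1 R (Trans_smul h2 a) (Trans_smul h3 b)
      · intro h1 R h2 h3
        exact h1 R ((Trans_smul_iff ha).mp h2) ((Trans_smul_iff hb).mp h3)
    rw [hdep]
    constructor
    · rintro ⟨hC0, V, hV, c, hc⟩
      refine ⟨hC0, ?_⟩
      obtain ⟨d, hd⟩ := (Good_par hX hY h V C).mp ⟨c, hc⟩
      have h1 := ((hℓ.gen A hA B hB hAB' V).mp hV).2
      intro R h2 h3
      rw [hd]
      exact Trans_smul (h1 R h2 h3) d
    · rintro ⟨hC0, h1⟩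
      refine ⟨hC0, C, ?_, 1, by rw [one_smul]⟩
      refine (hℓ.gen A hA B hB hAB' C).mpr ⟨?_, h1⟩
      intro h2
      exact hC0 ((Good_zero hX hY h C).mpr h2)
  meet := by
    intro S
    obtain ⟨S, rfl⟩ := h.surj S
    obtain ⟨U, hU, hUS⟩ := hℓ.meet S
    refine ⟨φ U, ⟨?_, U, hU, 1, by rw [one_smul]⟩, (h.iff U S).mpr hUS⟩
    rw [Ne, Good_zero hX hY h]
    exact HLine_ne hℓ hU

theorem Good_adj [CompleteSpace X] [CompleteSpace Y] {k : ℕ} (hX : Good X k)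
    (hY : Good Y k) {φ : (X →L[ℂ] X) → (Y →L[ℂ] Y)} (h : Pres k φ) {A B : X →L[ℂ] X}
    (hA : A ≠ 0) (hB : B ≠ 0) (hAB : ¬ ∃ c : ℂ, B = c • A) : Adj (φ A) (φ B) ↔ Adj A B := by
  have hAB' : ¬ ∃ c : ℂ, φ B = c • φ A := fun h1 => hAB ((Good_par hX hY h A B).mp h1)
  have hA' : φ A ≠ 0 := fun h1 => hA ((Good_zero hX hY h A).mp h1)
  have hB' : φ B ≠ 0 := fun h1 => hB ((Good_zero hX hY h B).mp h1)
  constructor
  · intro h1
    obtain ⟨ℓ, hℓ, h2, h3⟩ := hY.line _ _ hA' hB' hAB' h1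
    exact hX.adj _ (Good_pre hX hY h hℓ) _ h2 _ h3 hAB
  · intro h1
    obtain ⟨ℓ, hℓ, h2, h3⟩ := hX.line _ _ hA hB hAB h1
    exact hY.adj _ (Good_im hX hY h hℓ) _ ⟨hA', A, h2, 1, by rw [one_smul]⟩
      _ ⟨hB', B, h3, 1, by rw [one_smul]⟩ hAB'

end Pool.Agent.H.MP_bb4c62_an.QT
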