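import Pool.Agent.H.MP_bb4c62_an.QT.Good

/-!
# Module QT/Small: dimension at most one

Every operator `T` on `X` is a scalar (`X` is spanned by one vector). If `X` is trivial then `φ` is surjective from a
one-point set, so `Y →L[ℂ] Y` is trivial, so `Y` is (the identity is `0`). Otherwise `1 ≠ 0` in `X →L[ℂ] X`, and every
`T` is a multiple of `1`; so every operator on `Y` is a multiple of `φ 1 ≠ 0` (`surj`, `Pres.par_iff`, `Pres.zero_iff`),
and `Y` has dimension one (two independent vectors `y1`, `y2` and a functional `g ≠ 0` give the non-proportional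
`ten y1 g`, `ten y2 g`). `S` is any linear bijection, `τ` the identity, `φ T = s • 1`, `T = t • 1`, and `s = 0` iff
`t = 0` (`Pres.zero_iff`).
-/

namespace Pool.Agent.H.MP_bb4c62_an.QT

open Pool.Agent.H.MP_bb4c62_an.helper6.NL
open Pool.Agent.H.MP_bb4c62_an.helper6.Perturb
open Pool.Agent.H.MP_bb4c62_an.helper6.Gadgets
open Pool.Agent.H.MP_bb4c62_an.QP

variable {X : Type*} [NormedAddCommGroup X] [NormedSpace ℂ X]
variable {Y : Type*} [NormedAddCommGroup Y] [NormedSpace ℂ Y]

/-- in dimension one every operator is a scalar -/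
theorem Small_scalar {x0 : X} (hx : ∀ x : X, ∃ a : ℂ, a • x0 = x) (T : X →L[ℂ] X) :
    ∃ t : ℂ, ∀ x, T x = t • x := by
  obtain ⟨t, ht⟩ := hx (T x0)
  refine ⟨t, fun x => ?_⟩
  obtain ⟨a, rfl⟩ := hx x
  rw [map_smul, ← ht, smul_comm]

/-- a vector which spans gives a linear bijection with the field -/
theorem Small_equiv {x0 : X} (h0 : x0 ≠ 0) (hx : ∀ x : X, ∃ a : ℂ, a • x0 = x) :
    Nonempty (ℂ ≃ₗ[ℂ] X) := by
  refine ⟨LinearEquiv.ofBijective (LinearMap.toSpanSingleton ℂ X x0) ⟨?_, fun x => ?_⟩⟩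
  · intro a b hab
    rw [LinearMap.toSpanSingleton_apply, LinearMap.toSpanSingleton_apply] at hab
    exact smul_left_injective ℂ h0 hab
  · obtain ⟨a, ha⟩ := hx x
    exact ⟨a, by rw [LinearMap.toSpanSingleton_apply]; exact ha⟩

theorem small [CompleteSpace X] [CompleteSpace Y] {k : ℕ} (hX : Good X k)
    (hY : Good Y k) {φ : (X →L[ℂ] X) → (Y →L[ℂ] Y)} (h : Pres k φ)
    (h2 : ¬ ∃ v : Fin 2 → X, LinearIndependent ℂ v) :
    ∃ (c : (X →L[ℂ] X) → ℂ) (τ : ℂ ≃+* ℂ) (S : X ≃+ Y), (∀ T, c T ≠ 0) ∧ Adm τ S ∧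
      ∀ T x, φ T (S x) = c T • S (T x) := by
  by_cases hx0 : ∀ x : X, x = 0
  · have hsub : ∀ T : X →L[ℂ] X, T = 0 := fun T => by
      ext x
      rw [hx0 (T x), hx0 ((0 : X →L[ℂ] X) x)]
    have hY0 : ∀ y : Y, y = 0 := by
      obtain ⟨T1, hT1⟩ := h.surj (1 : Y →L[ℂ] Y)
      obtain ⟨T0, hT0⟩ := h.surj (0 : Y →L[ℂ] Y)
      intro y
      have h3 : (1 : Y →L[ℂ] Y) = 0 := by rw [← hT1, ← hT0, hsub T1, hsub T0]
      have h4 := congrArg (fun V : Y →L[ℂ] Y => V y) h3
      simpa using h4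
    refine ⟨fun _ => 1, RingEquiv.refl ℂ,
      { toFun := fun _ => 0
        invFun := fun _ => 0
        left_inv := fun x => (hx0 x).symm
        right_inv := fun y => (hY0 y).symm
        map_add' := fun _ _ => (add_zero (0 : Y)).symm }, fun _ => one_ne_zero, ⟨?_, ?_⟩, ?_⟩
    · intro a x
      exact (hY0 _).trans (hY0 _).symm
    · intro hfin
      exfalso
      apply hfin
      have : Subsingleton X := ⟨fun a b => by rw [hx0 a, hx0 b]⟩
      infer_instance
    · intro T x
      exact (hY0 _).trans (hY0 _).symm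
  · push Not at hx0
    obtain ⟨x0, h0⟩ := hx0
    have hx : ∀ x : X, ∃ a : ℂ, a • x0 = x := by
      intro x
      by_contra hcon
      push Not at hcon
      exact h2 ⟨![x0, x], (LinearIndependent.pair_iff' h0).2 hcon⟩
    have h1 : (1 : X →L[ℂ] X) ≠ 0 := fun h3 => by
      have h4 := congrArg (fun V : X →L[ℂ] X => V x0) h3
      exact h0 (by simpa using h4)
    have hφ1 : φ 1 ≠ 0 := fun h3 => h1 ((Good_zero hX hY h 1).1 h3)
    have hall : ∀ V : Y →L[ℂ] Y, ∃ c : ℂ, V = c • φ 1 := by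
      intro V
      obtain ⟨T, rfl⟩ := h.surj V
      obtain ⟨t, ht⟩ := Small_scalar hx T
      refine (Good_par hX hY h 1 T).2 ⟨t, ?_⟩
      ext x
      rw [ht x]
      rfl
    obtain ⟨y1, hy1⟩ : ∃ y : Y, y ≠ 0 := by
      by_contra hcon
      push Not at hcon
      apply hφ1
      ext y
      rw [hcon (φ 1 y), hcon ((0 : Y →L[ℂ] Y) y)]
    have hy : ∀ y : Y, ∃ a : ℂ, a • y1 = y := by
      intro y2
      by_contra hcon
      push Not at hcon
      have h3 : ¬ ∃ c : ℂ, y2 = c • y1 := fun ⟨c, hc⟩ => hcon c hc.symm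
      obtain ⟨-, g, hg1, -⟩ := exists_sep' hy1 h3
      obtain ⟨c1, hc1⟩ := hall (ten y1 g)
      obtain ⟨c2, hc2⟩ := hall (ten y2 g)
      have h5 : y1 = c1 • φ 1 y1 := by
        have h4 := congrArg (fun V : Y →L[ℂ] Y => V y1) hc1
        simp only [ten_apply, hg1, one_smul] at h4
        exact h4
      have h6 : y2 = c2 • φ 1 y1 := by
        have h4 := congrArg (fun V : Y →L[ℂ] Y => V y1) hc2
        simp only [ten_apply, hg1, one_smul] at h4
        exact h4
      have hc : c1 ≠ 0 := by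
        rintro rfl
        exact hy1 (by rw [h5, zero_smul])
      apply hcon (c2 * c1⁻¹)
      have h7 : c1⁻¹ • y1 = φ 1 y1 := by
        rw [eq_comm, eq_inv_smul_iff₀ hc]
        exact h5.symm
      rw [mul_smul, h7]
      exact h6.symm
    obtain ⟨e1⟩ := Small_equiv h0 hx
    obtain ⟨e2⟩ := Small_equiv hy1 hy
    have key : ∀ T : X →L[ℂ] X, ∃ c : ℂ, c ≠ 0 ∧
        ∀ x, φ T ((e1.symm.trans e2) x) = c • (e1.symm.trans e2) (T x) := by
      intro T
      obtain ⟨t, ht⟩ := Small_scalar hx T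
      obtain ⟨s, hs⟩ := Small_scalar hy (φ T)
      by_cases ht0 : t = 0
      · have hT : T = 0 := by
          ext x
          rw [ht x, ht0, zero_smul]
          rfl
        refine ⟨1, one_ne_zero, fun x => ?_⟩
        rw [(Good_zero hX hY h T).2 hT, hT]
        simp
      · have hs0 : s ≠ 0 := by
          intro hs0
          have hφT : φ T = 0 := by
            ext y
            rw [hs y, hs0, zero_smul]
            rfl
          have hT := (Good_zero hX hY h T).1 hφT
          have h8 := ht x0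
          rw [hT] at h8
          have h9 : t • x0 = 0 := by rw [← h8]; rfl
          rcases smul_eq_zero.1 h9 with h10 | h10
          · exact ht0 h10
          · exact h0 h10
        refine ⟨s / t, div_ne_zero hs0 ht0, fun x => ?_⟩
        rw [hs, ht x, map_smul, smul_smul, div_mul_cancel₀ s ht0]
    choose c hc0 hc using key
    refine ⟨c, RingEquiv.refl ℂ, (e1.symm.trans e2).toAddEquiv, hc0, ⟨?_, ?_⟩, fun T x => ?_⟩
    · intro a x
      exact map_smul (e1.symm.trans e2) a x
    · intro hfin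
      exact absurd (Module.Finite.equiv e1) hfin
    · exact hc T x

end Pool.Agent.H.MP_bb4c62_an.QT
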