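import Pool.Agent.H.MP_bb4c62_an.QT.Test

/-!
# Module QT/TwoAdj

Dimension two: `(v 0, v 1)` is a basis, `(f 0, f 1)` the dual basis. `hrow`, `hcol`: rows and columns are H-lines
(module QT/TwoLine, here hypotheses). Members of an H-line are pairwise adjacent.

(0) `Two_inv`: for `a, a'` independent and `g, g'` independent there is `S` with `Prp 2 U S ↔ QN (ten (U a) g + ten (U a') g')`.
With `g = f 0`, `g' = f 1` this says that `U * V` is quasinilpotent where `V = ten a (f 0) + ten a' (f 1)`, that is `V (v 0) = a`,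
`V (v 1) = a'`. By `qn_two`: `f 0 (U a) + f 1 (U a') = 0` and `f 0 (U a) * f 1 (U a') - f 0 (U a') * f 1 (U a) = 0`.
`hℓ.meet` gives for every such `V` a member `U` of `ℓ` (`U ≠ 0`) with these two equations: the second says that `U a`,
`U a'` are dependent, so `U` is of rank one: `U = ten w h`, and then the first says `h (V w) = 0`.
(1) Two members of rank one `N = ten a f'`, `B = ten b h` with `a`, `b` independent and `f'`, `h` independent do not exist: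
let `x0, x1 ≠ 0`, `f' x0 = 0`, `h x1 = 0` (independent), `a*`, `b*` the basis dual to `a`, `b`. For all `α, β ≠ 0` there is `S`
with `Prp 2 U S ↔ QN (ten (U (α • x0)) a* + ten (U (β • x1)) b*)` (`Two_inv`); `N` and `B` pass this test
(`f' x0 = 0`: `N` gives `ten (β f'(x1) a) b*`, `b* a = 0`, `qn_ten_iff`; same for `B`). By `hℓ.gen` every member `C` passes
it: `α a*(C x0) + β b*(C x1) = 0` for all `α, β ≠ 0`, so `a*(C x0) = 0 = b*(C x1)`, and then by the determinant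
`b*(C x0) * a*(C x1) = 0`. So `C x0` is a multiple of `b`, `C x1` is a multiple of `a`, one of them is `0`: `C` is a multiple
of `B` or of `N`. But there is an invertible `V` with `f' (V a) ≠ 0`, `h (V b) ≠ 0` (`V a`, `V b` independent, in
general position: choose `p` with `f' p ≠ 0` and `q` with `h q ≠ 0`, `p`, `q` independent, `V a = p`, `V b = q`;
use `Two_inv` with `(g, g') = (a*, b*)`), and `meet` for it is not satisfied by multiples of `N`, `B`.
(2) There are two non-proportional members of rank one: `N = ten w h` from (0), and (0) again with an invertible `V` with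
`h (V w) ≠ 0` gives a member `N' = ten w' h'` with `h' (V w') = 0`, not a multiple of `N`.
(3) `N`, `N'` are adjacent by (1), so they lie in a common row or column `ℓ'`; `hℓ.gen` and `hrow.gen` (or `hcol.gen`) with
`N`, `N'` give `C ∈ ℓ ↔ C ∈ ℓ'`. So `A`, `B` are in the row or column, `Adj A B`.
-/

namespace Pool.Agent.H.MP_bb4c62_an.QT

open Pool.Agent.H.MP_bb4c62_an.helper6.NL
open Pool.Agent.H.MP_bb4c62_an.helper6.Perturb
open Pool.Agent.H.MP_bb4c62_an.helper6.Gadgets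
open Pool.Agent.H.MP_bb4c62_an.QP

variable {X : Type*} [NormedAddCommGroup X] [NormedSpace ℂ X]

/-- expansion of a functional in the basis -/
theorem TwoAdj_exp {v : Fin 2 → X} {f : Fin 2 → X →L[ℂ] ℂ}
    (hsp : ∀ x : X, x = f 0 x • v 0 + f 1 x • v 1) (k : X →L[ℂ] ℂ) (y : X) :
    k y = f 0 y * k (v 0) + f 1 y * k (v 1) := by
  conv_lhs => rw [hsp y]
  rw [map_add, map_smul, map_smul, smul_eq_mul, smul_eq_mul]

/-- Gram determinants are products -/
theorem TwoAdj_mul {v : Fin 2 → X} {f : Fin 2 → X →L[ℂ] ℂ}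
    (hsp : ∀ x : X, x = f 0 x • v 0 + f 1 x • v 1) (g g' : X →L[ℂ] ℂ) (x x' : X) :
    g x * g' x' - g x' * g' x =
      (g (v 0) * g' (v 1) - g (v 1) * g' (v 0)) * (f 0 x * f 1 x' - f 0 x' * f 1 x) := by
  rw [TwoAdj_exp hsp g x, TwoAdj_exp hsp g' x', TwoAdj_exp hsp g x', TwoAdj_exp hsp g' x]
  ring

theorem TwoAdj_ext {v : Fin 2 → X} {f : Fin 2 → X →L[ℂ] ℂ}
    (hsp : ∀ x : X, x = f 0 x • v 0 + f 1 x • v 1) {y z : X} {c : ℂ}
    (h0 : f 0 z = c * f 0 y) (h1 : f 1 z = c * f 1 y) : z = c • y := by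
  calc z = f 0 z • v 0 + f 1 z • v 1 := hsp z
    _ = c • (f 0 y • v 0 + f 1 y • v 1) := by rw [smul_add, smul_smul, smul_smul, h0, h1]
    _ = c • y := by rw [← hsp y]

theorem TwoAdj_par {v : Fin 2 → X} {f : Fin 2 → X →L[ℂ] ℂ}
    (hsp : ∀ x : X, x = f 0 x • v 0 + f 1 x • v 1) {y z : X} (hy : y ≠ 0)
    (h : f 0 y * f 1 z - f 0 z * f 1 y = 0) : ∃ c : ℂ, z = c • y := by
  by_cases h0 : f 0 y = 0
  · have h1 : f 1 y ≠ 0 := by
      intro h1
      apply hy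
      rw [hsp y, h0, h1, zero_smul, zero_smul, add_zero]
    have h2 : f 0 z = 0 := by
      rw [h0, zero_mul, zero_sub, neg_eq_zero, mul_eq_zero] at h
      exact h.resolve_right h1
    refine ⟨f 1 z * (f 1 y)⁻¹, TwoAdj_ext hsp ?_ ?_⟩
    · rw [h0, h2, mul_zero]
    · rw [mul_assoc, inv_mul_cancel₀ h1, mul_one]
  · refine ⟨f 0 z * (f 0 y)⁻¹, TwoAdj_ext hsp ?_ ?_⟩
    · rw [mul_assoc, inv_mul_cancel₀ h0, mul_one]
    · field_simp
      linear_combination h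

theorem TwoAdj_fpar {v : Fin 2 → X} {f : Fin 2 → X →L[ℂ] ℂ}
    (hsp : ∀ x : X, x = f 0 x • v 0 + f 1 x • v 1) {g h : X →L[ℂ] ℂ} (hg : g ≠ 0)
    (hgh : g (v 0) * h (v 1) - g (v 1) * h (v 0) = 0) : ∃ c : ℂ, h = c • g := by
  by_cases h0 : g (v 0) = 0
  · have h1 : g (v 1) ≠ 0 := by
      intro h1
      apply hg
      ext x
      rw [TwoAdj_exp hsp g x, h0, h1, mul_zero, mul_zero, add_zero]
      rfl
    have h2 : h (v 0) = 0 := by
      rw [h0, zero_mul, zero_sub, neg_eq_zero, mul_eq_zero] at hgh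
      exact hgh.resolve_left h1
    refine ⟨h (v 1) * (g (v 1))⁻¹, ?_⟩
    ext x
    show h x = h (v 1) * (g (v 1))⁻¹ * g x
    rw [TwoAdj_exp hsp g x, TwoAdj_exp hsp h x, h0, h2]
    field_simp
    ring
  · refine ⟨h (v 0) * (g (v 0))⁻¹, ?_⟩
    ext x
    show h x = h (v 0) * (g (v 0))⁻¹ * g x
    rw [TwoAdj_exp hsp g x, TwoAdj_exp hsp h x]
    field_simp
    linear_combination f 1 x * hgh

/-- operators with determinant zero -/
theorem TwoAdj_ten {v : Fin 2 → X} {f : Fin 2 → X →L[ℂ] ℂ}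
    (hsp : ∀ x : X, x = f 0 x • v 0 + f 1 x • v 1) {U : X →L[ℂ] X} (hU : U ≠ 0)
    (h : f 0 (U (v 0)) * f 1 (U (v 1)) - f 0 (U (v 1)) * f 1 (U (v 0)) = 0) :
    ∃ (w : X) (g : X →L[ℂ] ℂ), w ≠ 0 ∧ g ≠ 0 ∧ U = ten w g := by
  obtain ⟨x0, hx0⟩ : ∃ x0, U x0 ≠ 0 := by
    by_contra hcon
    push Not at hcon
    exact hU (by ext x; exact hcon x)
  obtain ⟨g, hg⟩ := Basic_ten_of_local (A := U) hx0 fun x => by
    refine TwoAdj_par hsp hx0 ?_
    have h1 := TwoAdj_mul hsp ((f 0).comp U) ((f 1).comp U) x0 x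
    have h2 : f 0 (U x0) * f 1 (U x) - f 0 (U x) * f 1 (U x0) =
      (f 0 (U (v 0)) * f 1 (U (v 1)) - f 0 (U (v 1)) * f 1 (U (v 0))) *
        (f 0 x0 * f 1 x - f 0 x * f 1 x0) := h1
    rw [h2, h, zero_mul]
  refine ⟨U x0, g, hx0, ?_, hg⟩
  rintro rfl
  exact hU (by rw [hg]; exact ten_eq_zero_iff.mpr (Or.inr rfl))

theorem TwoAdj_meet [CompleteSpace X] {v : Fin 2 → X} {f : Fin 2 → X →L[ℂ] ℂ}
    (hsp : ∀ x : X, x = f 0 x • v 0 + f 1 x • v 1) {ℓ : Set (X →L[ℂ] X)} (hℓ : HLine 2 ℓ)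
    {a a' : X} (h : f 0 a * f 1 a' - f 0 a' * f 1 a ≠ 0) :
    ∃ (w : X) (g : X →L[ℂ] ℂ), w ≠ 0 ∧ g ≠ 0 ∧ ten w g ∈ ℓ ∧
      g a * f 0 w + g a' * f 1 w = 0 := by
  obtain ⟨S, hS⟩ := Two_inv h
  obtain ⟨U, hU, hUS⟩ := hℓ.meet S
  obtain ⟨e1, e2⟩ := qn_two ((hS U).mp hUS)
  have h1 : f 0 (U a) * f 1 (U a') - f 0 (U a') * f 1 (U a) =
      (f 0 (U (v 0)) * f 1 (U (v 1)) - f 0 (U (v 1)) * f 1 (U (v 0))) *
        (f 0 a * f 1 a' - f 0 a' * f 1 a) :=
    TwoAdj_mul hsp ((f 0).comp U) ((f 1).comp U) a a'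
  rw [e2] at h1
  obtain ⟨w, g, hw, hg, rfl⟩ := TwoAdj_ten hsp (HLine_ne hℓ hU)
    ((mul_eq_zero.mp h1.symm).resolve_right h)
  refine ⟨w, g, hw, hg, hU, ?_⟩
  rw [ten_apply, ten_apply, map_smul, map_smul, smul_eq_mul, smul_eq_mul] at e1
  exact e1

/-- two members of rank one have a common range or a common kernel -/
theorem TwoAdj_no [CompleteSpace X] {v : Fin 2 → X} {f : Fin 2 → X →L[ℂ] ℂ}
    (hf : ∀ i j, f i (v j) = if i = j then 1 else 0)
    (hsp : ∀ x : X, x = f 0 x • v 0 + f 1 x • v 1) {ℓ : Set (X →L[ℂ] X)} (hℓ : HLine 2 ℓ)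
    {a b : X} {g h : X →L[ℂ] ℂ} (hN : ten a g ∈ ℓ) (hB : ten b h ∈ ℓ)
    (hab : f 0 a * f 1 b - f 0 b * f 1 a ≠ 0)
    (hgh : g (v 0) * h (v 1) - g (v 1) * h (v 0) ≠ 0) : False := by
  have ha : a ≠ 0 := by
    rintro rfl
    apply hab
    rw [map_zero, map_zero, zero_mul, mul_zero, sub_zero]
  have hba : ¬ ∃ c : ℂ, b = c • a := by
    rintro ⟨c, rfl⟩
    apply hab
    rw [map_smul, map_smul, smul_eq_mul, smul_eq_mul]
    ring
  have hnp : ¬ ∃ c : ℂ, ten b h = c • ten a g := by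
    rintro ⟨c, hc⟩
    have h1 : ∀ x, h x • b = (c * g x) • a := by
      intro x
      have h2 : ten b h x = (c • ten a g) x := by rw [hc]
      have h3 : h x • b = c • g x • a := h2
      rw [h3, smul_smul]
    have h2 : ∀ x, h x = 0 := by
      intro x
      by_contra hx
      apply hba
      refine ⟨(h x)⁻¹ * (c * g x), ?_⟩
      rw [mul_smul, ← h1 x, smul_smul, inv_mul_cancel₀ hx, one_smul]
    apply hgh
    rw [h2, h2, mul_zero, mul_zero, sub_zero]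
  obtain ⟨⟨bs, hb0, hb1⟩, ⟨as, ha1, ha0⟩⟩ := exists_sep' ha hba
  have hE : as (v 0) * bs (v 1) - as (v 1) * bs (v 0) ≠ 0 := by
    intro hE
    have h1 := TwoAdj_mul hsp as bs a b
    rw [hE, zero_mul, ha1, ha0, hb1, hb0, mul_one, mul_zero, sub_zero] at h1
    exact one_ne_zero h1
  obtain ⟨x0, hx0⟩ : ∃ x0, x0 = g (v 1) • v 0 - g (v 0) • v 1 := ⟨_, rfl⟩
  obtain ⟨x1, hx1⟩ : ∃ x1, x1 = h (v 1) • v 0 - h (v 0) • v 1 := ⟨_, rfl⟩
  have k0 : ∀ k : X →L[ℂ] ℂ, k x0 = g (v 1) * k (v 0) - g (v 0) * k (v 1) := by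
    intro k
    rw [hx0, map_sub, map_smul, map_smul, smul_eq_mul, smul_eq_mul]
  have k1 : ∀ k : X →L[ℂ] ℂ, k x1 = h (v 1) * k (v 0) - h (v 0) * k (v 1) := by
    intro k
    rw [hx1, map_sub, map_smul, map_smul, smul_eq_mul, smul_eq_mul]
  have hD : f 0 x0 * f 1 x1 - f 0 x1 * f 1 x0 ≠ 0 := by
    rw [k0, k0, k1, k1, hf, hf, hf, hf]
    simpa using fun h1 => hgh (by linear_combination h1)
  have hgx : g x0 = 0 := by rw [k0]; ring
  have hhx : h x1 = 0 := by rw [k1]; ring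
  have key : ∀ C ∈ ℓ, ∀ t : ℂ, t ≠ 0 → as (C x0) + t * bs (C x1) = 0 ∧
      t * (as (C x0) * bs (C x1) - as (C x1) * bs (C x0)) = 0 := by
    intro C hC t ht
    obtain ⟨S, hS⟩ := Two_inv (a := x0) (a' := t • x1) (g := as) (g' := bs) (by
      intro h1
      rw [map_smul, map_smul, smul_eq_mul, smul_eq_mul] at h1
      have h2 : t * (as x0 * bs x1 - as x1 * bs x0) = 0 := by linear_combination h1
      rw [TwoAdj_mul hsp as bs x0 x1] at h2
      exact (mul_ne_zero ht (mul_ne_zero hE hD)) h2)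
    have hNS : Prp 2 (ten a g) S := by
      rw [hS, ten_apply, ten_apply, hgx, zero_smul]
      have h1 : ten (0 : X) as = 0 := ten_eq_zero_iff.mpr (Or.inl rfl)
      rw [h1, zero_add, qn_ten_iff, map_smul, hb0, smul_zero]
    have hBS : Prp 2 (ten b h) S := by
      rw [hS, ten_apply, ten_apply, map_smul, hhx, smul_zero, zero_smul]
      have h1 : ten (0 : X) bs = 0 := ten_eq_zero_iff.mpr (Or.inl rfl)
      rw [h1, add_zero, qn_ten_iff, map_smul, ha0, smul_zero]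
    have hCS := ((hℓ.gen _ hN _ hB hnp C).mp hC).2 S hNS hBS
    rw [hS] at hCS
    obtain ⟨e1, e2⟩ := qn_two hCS
    rw [map_smul, map_smul, smul_eq_mul] at e1
    rw [map_smul, map_smul, map_smul, smul_eq_mul, smul_eq_mul] at e2
    exact ⟨e1, by linear_combination e2⟩
  obtain ⟨S, hS⟩ := Two_inv (a := x1) (a' := x0) (g := as) (g' := bs) (by
    intro h1
    rw [TwoAdj_mul hsp as bs x1 x0] at h1
    have h2 := (mul_eq_zero.mp h1).resolve_left hE
    exact hD (by linear_combination -h2))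
  obtain ⟨U, hU, hUS⟩ := hℓ.meet S
  obtain ⟨e1, e2⟩ := qn_two ((hS U).mp hUS)
  obtain ⟨c1, c2⟩ := key U hU 1 one_ne_zero
  obtain ⟨c3, -⟩ := key U hU 2 two_ne_zero
  have p1 : bs (U x1) = 0 := by linear_combination c3 - c1
  have p2 : as (U x0) = 0 := by linear_combination 2 * c1 - c3
  have p3 : as (U x1) * bs (U x0) = 0 := by
    rw [p1, p2] at c2
    linear_combination -c2
  have p4 : as (U x1) = 0 := by
    have h1 : as (U x1) ^ 2 = 0 := by linear_combination as (U x1) * e1 - p3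
    exact pow_eq_zero_iff (two_ne_zero) |>.mp h1
  have p5 : bs (U x0) = 0 := by linear_combination e1 - p4
  have q0 : ∀ k : X →L[ℂ] ℂ, k (U x0) = 0 → k (U x1) = 0 → k (U (v 0)) = 0 ∧ k (U (v 1)) = 0 := by
    intro k h1 h2
    have h3 : g (v 1) * k (U (v 0)) - g (v 0) * k (U (v 1)) = 0 := by
      rw [← h1]; exact (k0 (k.comp U)).symm
    have h4 : h (v 1) * k (U (v 0)) - h (v 0) * k (U (v 1)) = 0 := by
      rw [← h2]; exact (k1 (k.comp U)).symm
    constructor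
    · refine (mul_eq_zero.mp ?_).resolve_left hgh
      linear_combination g (v 0) * h4 - h (v 0) * h3
    · refine (mul_eq_zero.mp ?_).resolve_left hgh
      linear_combination g (v 1) * h4 - h (v 1) * h3
  have r0 : ∀ y : X, as y = 0 → bs y = 0 → y = 0 := by
    intro y h1 h2
    rw [TwoAdj_exp hsp as y] at h1
    rw [TwoAdj_exp hsp bs y] at h2
    have h3 : f 0 y = 0 := by
      refine (mul_eq_zero.mp ?_).resolve_left hE
      linear_combination bs (v 1) * h1 - as (v 1) * h2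
    have h4 : f 1 y = 0 := by
      refine (mul_eq_zero.mp ?_).resolve_left hE
      linear_combination as (v 0) * h2 - bs (v 0) * h1
    rw [hsp y, h3, h4, zero_smul, zero_smul, add_zero]
  obtain ⟨a0, a1⟩ := q0 as p2 p4
  obtain ⟨b0, b1⟩ := q0 bs p5 p1
  apply HLine_ne hℓ hU
  ext x
  rw [hsp x, map_add, map_smul, map_smul, r0 _ a0 b0, r0 _ a1 b1, smul_zero, smul_zero, add_zero]
  rfl

theorem TwoAdj_scal {p q : ℂ} (hp : p ≠ 0) : ∃ t : ℂ, t ≠ 0 ∧ t * p + q ≠ 0 := by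
  by_cases h : p + q = 0
  · refine ⟨2, two_ne_zero, fun h1 => hp ?_⟩
    linear_combination h1 - h
  · exact ⟨1, one_ne_zero, by rw [one_mul]; exact h⟩

theorem TwoAdj_choose {v : Fin 2 → X} {f : Fin 2 → X →L[ℂ] ℂ}
    (hf : ∀ i j, f i (v j) = if i = j then 1 else 0)
    (hsp : ∀ x : X, x = f 0 x • v 0 + f 1 x • v 1) {w : X} {h : X →L[ℂ] ℂ} (hw : w ≠ 0)
    (hh : h ≠ 0) : ∃ a a' : X, f 0 a * f 1 a' - f 0 a' * f 1 a ≠ 0 ∧
      h a * f 0 w + h a' * f 1 w ≠ 0 := by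
  have hf00 : f 0 (v 0) = 1 := by simp [hf]
  have hf01 : f 0 (v 1) = 0 := by simp [hf]
  have hf10 : f 1 (v 0) = 0 := by simp [hf]
  have hf11 : f 1 (v 1) = 1 := by simp [hf]
  have hw' : f 0 w ≠ 0 ∨ f 1 w ≠ 0 := by
    by_contra hcon
    push Not at hcon
    exact hw (by rw [hsp w, hcon.1, hcon.2, zero_smul, zero_smul, add_zero])
  have hh' : h (v 0) ≠ 0 ∨ h (v 1) ≠ 0 := by
    by_contra hcon
    push Not at hcon
    apply hh
    ext x
    rw [TwoAdj_exp hsp h x, hcon.1, hcon.2, mul_zero, mul_zero, add_zero]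
    rfl
  rcases hw' with hw0 | hw1
  · rcases hh' with hh0 | hh1
    · obtain ⟨t, ht, h1⟩ := TwoAdj_scal (q := h (v 1) * f 1 w) (mul_ne_zero hh0 hw0)
      refine ⟨t • v 0, v 1, ?_, ?_⟩
      · rw [map_smul, map_smul, hf00, hf01, hf11]
        simpa using ht
      · rw [map_smul, smul_eq_mul, mul_assoc]
        exact h1
    · obtain ⟨t, ht, h1⟩ := TwoAdj_scal (q := h (v 0) * f 1 w) (mul_ne_zero hh1 hw0)
      refine ⟨t • v 1, v 0, ?_, ?_⟩
      · rw [map_smul, map_smul, hf01, hf00, hf10, hf11]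
        simpa using ht
      · rw [map_smul, smul_eq_mul, mul_assoc]
        exact h1
  · rcases hh' with hh0 | hh1
    · obtain ⟨t, ht, h1⟩ := TwoAdj_scal (q := h (v 1) * f 0 w) (mul_ne_zero hh0 hw1)
      refine ⟨v 1, t • v 0, ?_, ?_⟩
      · rw [map_smul, map_smul, hf01, hf00, hf10, hf11]
        simpa using ht
      · rw [map_smul, smul_eq_mul, mul_assoc, add_comm]
        exact h1
    · obtain ⟨t, ht, h1⟩ := TwoAdj_scal (q := h (v 0) * f 0 w) (mul_ne_zero hh1 hw1)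
      refine ⟨v 0, t • v 1, ?_, ?_⟩
      · rw [map_smul, map_smul, hf00, hf01, hf11]
        simpa using ht
      · rw [map_smul, smul_eq_mul, mul_assoc, add_comm]
        exact h1

theorem Two_adj [CompleteSpace X] {v : Fin 2 → X} {f : Fin 2 → X →L[ℂ] ℂ}
    (hf : ∀ i j, f i (v j) = if i = j then 1 else 0) (hsp : ∀ x : X, x = f 0 x • v 0 + f 1 x • v 1)
    (hrow : ∀ w : X, w ≠ 0 → HLine 2 {T : X →L[ℂ] X | ∃ h : X →L[ℂ] ℂ, h ≠ 0 ∧ T = ten w h})
    (hcol : ∀ h : X →L[ℂ] ℂ, h ≠ 0 → HLine 2 {T : X →L[ℂ] X | ∃ w : X, w ≠ 0 ∧ T = ten w h})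
    (ℓ : Set (X →L[ℂ] X)) (hℓ : HLine 2 ℓ) (A : X →L[ℂ] X) (hA : A ∈ ℓ) (B : X →L[ℂ] X)
    (hB : B ∈ ℓ) (hAB : ¬ ∃ c : ℂ, B = c • A) : Adj A B := by
  have hf00 : f 0 (v 0) = 1 := by simp [hf]
  have hf01 : f 0 (v 1) = 0 := by simp [hf]
  have hf10 : f 1 (v 0) = 0 := by simp [hf]
  have hf11 : f 1 (v 1) = 1 := by simp [hf]
  obtain ⟨w, h, hw, hh, hN, -⟩ := TwoAdj_meet hsp hℓ (a := v 0) (a' := v 1)
    (by rw [hf00, hf01, hf10, hf11]; norm_num)
  obtain ⟨a, a', h1, h2⟩ := TwoAdj_choose hf hsp hw hh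
  obtain ⟨w', h', hw', hh', hN', h3⟩ := TwoAdj_meet hsp hℓ h1
  have hnp : ¬ ∃ c : ℂ, ten w' h' = c • ten w h := by
    rintro ⟨c, hc⟩
    have e : ∀ (k : X →L[ℂ] ℂ) (x : X), h' x * k w' = c * (h x * k w) := by
      intro k x
      have e1 : k (ten w' h' x) = k ((c • ten w h) x) := by rw [hc]
      have e2 : k (h' x • w') = k (c • h x • w) := e1
      rw [map_smul, map_smul, map_smul, smul_eq_mul, smul_eq_mul, smul_eq_mul] at e2
      exact e2
    have h4 : c * (h a * f 0 w + h a' * f 1 w) = 0 := by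
      rw [mul_add, ← e, ← e, h3]
    rcases mul_eq_zero.mp h4 with h5 | h5
    · rw [h5, zero_smul] at hc
      exact HLine_ne hℓ hN' hc
    · exact h2 h5
  by_cases hD : f 0 w * f 1 w' - f 0 w' * f 1 w = 0
  · obtain ⟨c, rfl⟩ := TwoAdj_par hsp hw hD
    have hc : c ≠ 0 := by
      rintro rfl
      exact hw' (zero_smul _ _)
    have key : ∀ C ∈ ℓ, ∃ g : X →L[ℂ] ℂ, C = ten w g := by
      intro C hC
      have h4 : C ∈ {T : X →L[ℂ] X | ∃ h : X →L[ℂ] ℂ, h ≠ 0 ∧ T = ten w h} := by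
        refine ((hrow w hw).gen _ ⟨h, hh, rfl⟩ _ ⟨c • h', smul_ne_zero hc hh', ?_⟩ hnp C).mpr
          ((hℓ.gen _ hN _ hN' hnp C).mp hC)
        rw [ten_smul_left, ten_smul_right]
      obtain ⟨g, -, hg⟩ := h4
      exact ⟨g, hg⟩
    obtain ⟨g1, hg1⟩ := key A hA
    obtain ⟨g2, hg2⟩ := key B hB
    exact Or.inl ⟨w, g1, g2, hg1, hg2⟩
  · by_cases hE : h (v 0) * h' (v 1) - h (v 1) * h' (v 0) = 0
    · obtain ⟨c, rfl⟩ := TwoAdj_fpar hsp hh hE
      have hc : c ≠ 0 := by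
        rintro rfl
        exact hh' (by ext x; exact zero_mul (h x))
      have key : ∀ C ∈ ℓ, ∃ z : X, C = ten z h := by
        intro C hC
        have h4 : C ∈ {T : X →L[ℂ] X | ∃ w : X, w ≠ 0 ∧ T = ten w h} := by
          refine ((hcol h hh).gen _ ⟨w, hw, rfl⟩ _ ⟨c • w', smul_ne_zero hc hw', ?_⟩ hnp C).mpr
            ((hℓ.gen _ hN _ hN' hnp C).mp hC)
          rw [ten_smul_left, ten_smul_right]
        obtain ⟨z, -, hz⟩ := h4
        exact ⟨z, hz⟩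
      obtain ⟨z1, hz1⟩ := key A hA
      obtain ⟨z2, hz2⟩ := key B hB
      exact Or.inr ⟨z1, z2, h, hz1, hz2⟩
    · exact (TwoAdj_no hf hsp hℓ hN hN' hD hE).elim

end Pool.Agent.H.MP_bb4c62_an.QT
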