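import Pool.Agent.H.MP_bb4c62_an.QT.Test

/-!
# Module QT/TwoLine

Dimension two: `(v 0, v 1)` is a basis, `(f 0, f 1)` the dual basis. Rows and columns are H-lines.

`Two_row`: `Prp 2 (ten w h) S ↔ h ((S ^ 2) w) = 0` (`ten_mul`, `qn_ten_iff`). `two`: `ten w (f 0)`, `ten w (f 1)`. `gen`: let
`A = ten w h1`, `B = ten w h2`, `h1`, `h2` not proportional (so they separate points: `h1 y = h2 y = 0` gives `y = 0`).
If `C = ten w h` then `Prp 2 A S`, `Prp 2 B S` give `(S ^ 2) w = 0`, so `Prp 2 C S`. Conversely let `Dep 2 A B C`, `C ≠ 0`.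
There is `e ≠ 0` with `e w = 0` (`e = f 1 w • f 0 - f 0 w • f 1`). For `x` with `e x ≠ 0` the test `ten x e` (`Two_test`)
is passed by `A` and `B` (`e (h1 x • w) = 0`), so `e (C x) = 0`; for `e x = 0` write `x = (x + u) - u` with `e u ≠ 0`. So
`e (C x) = 0` for all `x`, `C x` is a multiple of `w` (dimension two), `C = ten w h` (`Basic_ten_of_local`), `h ≠ 0`.
`meet`: a functional `h ≠ 0` with `h ((S ^ 2) w) = 0`: `h = f 1 y • f 0 - f 0 y • f 1` with `y = (S ^ 2) w`, or `f 0` if `y = 0`.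

`Two_col`: `A = ten w1 h`, `B = ten w2 h`, `w1`, `w2` a basis. `Prp 2 (ten w h) S ↔ h ((S ^ 2) w) = 0`. If `C = ten w h` then
`h ((S ^ 2) w1) = h ((S ^ 2) w2) = 0` gives `h ∘ S ^ 2 = 0`. Conversely: there is `u ≠ 0` with `h u = 0`; for every `e` with
`e u ≠ 0` the test `ten u e` (`Two_test`) is passed by `A` and `B` (`A u = 0`), so `e (C u) = 0`; so `C u = 0`
(`exists_gen 0 {u, C u}`), so `C = ten (C u1) h` with `h u1 = 1` (`x - h x • u1` is a multiple of `u`), `C u1 ≠ 0`.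
`meet`: `w ≠ 0` with `h ((S ^ 2) w) = 0` (a functional on a space of dimension two has a non-zero kernel vector).
-/

namespace Pool.Agent.H.MP_bb4c62_an.QT

open Pool.Agent.H.MP_bb4c62_an.helper6.NL
open Pool.Agent.H.MP_bb4c62_an.helper6.Perturb
open Pool.Agent.H.MP_bb4c62_an.helper6.Gadgets
open Pool.Agent.H.MP_bb4c62_an.QP

variable {X : Type*} [NormedAddCommGroup X] [NormedSpace ℂ X]

private theorem TwoLine_span {V : Type*} [AddCommGroup V] [Module ℂ V] {f g h1 h2 h : V}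
    (m1 : ∃ a b : ℂ, h1 = a • f + b • g) (m2 : ∃ a b : ℂ, h2 = a • f + b • g)
    (m : ∃ a b : ℂ, h = a • f + b • g) (hn : h1 ≠ 0) (hp : ¬ ∃ c : ℂ, h2 = c • h1) :
    ∃ a b : ℂ, h = a • h1 + b • h2 := by
  obtain ⟨a1, b1, rfl⟩ := m1
  obtain ⟨a2, b2, rfl⟩ := m2
  obtain ⟨a, b, rfl⟩ := m
  have hD : a1 * b2 - a2 * b1 ≠ 0 := by
    intro hD
    apply hp
    by_cases h0 : a1 = 0
    · have hb : b1 ≠ 0 := by
        rintro rfl
        apply hn
        rw [h0, zero_smul, zero_smul, add_zero]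
      have ha2 : a2 = 0 := by
        rw [h0, zero_mul, zero_sub, neg_eq_zero] at hD
        rcases mul_eq_zero.1 hD with h3 | h3
        · exact h3
        · exact absurd h3 hb
      refine ⟨b2 / b1, ?_⟩
      rw [h0, ha2, zero_smul, zero_add, zero_add, smul_smul, div_mul_cancel₀ _ hb]
    · refine ⟨a2 / a1, ?_⟩
      have h3 : b2 = a2 / a1 * b1 := by
        field_simp
        linear_combination hD
      rw [smul_add, smul_smul, smul_smul, div_mul_cancel₀ _ h0, ← h3]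
  obtain ⟨c1, hc1⟩ : ∃ c, c = (a * b2 - b * a2) / (a1 * b2 - a2 * b1) := ⟨_, rfl⟩
  obtain ⟨c2, hc2⟩ : ∃ c, c = (b * a1 - a * b1) / (a1 * b2 - a2 * b1) := ⟨_, rfl⟩
  have e1 : c1 * a1 + c2 * a2 = a := by
    rw [hc1, hc2, div_mul_eq_mul_div, div_mul_eq_mul_div, ← add_div, div_eq_iff hD]
    ring
  have e2 : c1 * b1 + c2 * b2 = b := by
    rw [hc1, hc2, div_mul_eq_mul_div, div_mul_eq_mul_div, ← add_div, div_eq_iff hD]
    ring
  refine ⟨c1, c2, ?_⟩
  rw [← e1, ← e2]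
  module

private theorem TwoLine_comb {V : Type*} [AddCommGroup V] [Module ℂ V] {f g : V} (hf : f ≠ 0)
    (hfg : ¬ ∃ c : ℂ, g = c • f) (α β : ℂ) :
    ∃ a b : ℂ, a • f + b • g ≠ 0 ∧ a * α + b * β = 0 := by
  by_cases h : α = 0 ∧ β = 0
  · refine ⟨1, 0, ?_, ?_⟩
    · rw [one_smul, zero_smul, add_zero]
      exact hf
    · rw [h.1, h.2, mul_zero, mul_zero, add_zero]
  · refine ⟨β, -α, ?_, by ring⟩
    intro h0
    have h1 : β • f = α • g := by
      rw [neg_smul, ← sub_eq_add_neg, sub_eq_zero] at h0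
      exact h0
    by_cases hα : α = 0
    · rw [hα, zero_smul] at h1
      rcases smul_eq_zero.1 h1 with h2 | h2
      · exact h ⟨hα, h2⟩
      · exact hf h2
    · apply hfg
      refine ⟨α⁻¹ * β, ?_⟩
      rw [mul_smul, h1, smul_smul, inv_mul_cancel₀ hα, one_smul]

private theorem TwoLine_prp [CompleteSpace X] {k : ℕ} {w : X} {h : X →L[ℂ] ℂ} {S : X →L[ℂ] X} :
    Prp k (ten w h) S ↔ h ((S ^ k) w) = 0 := by
  unfold Prp
  rw [ten_mul, qn_ten_iff]
  rfl

/-- the test by `ten y l`, for `l y ≠ 0` -/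
private theorem TwoLine_dep [CompleteSpace X] {A B C : X →L[ℂ] X} (h : Dep 2 A B C) (y : X)
    (l : X →L[ℂ] ℂ) (hl : l y ≠ 0) (hA : l (A y) = 0) (hB : l (B y) = 0) : l (C y) = 0 := by
  obtain ⟨S, -, hS⟩ := Two_test hl
  exact (hS C).1 (h S ((hS A).2 hA) ((hS B).2 hB))

/-- the functionals are combinations of `f 0` and `f 1` -/
private theorem TwoLine_fun {v : Fin 2 → X} {f : Fin 2 → X →L[ℂ] ℂ}
    (hsp : ∀ x : X, x = f 0 x • v 0 + f 1 x • v 1) (e : X →L[ℂ] ℂ) :
    e = e (v 0) • f 0 + e (v 1) • f 1 := by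
  ext x
  have h1 := congrArg e (hsp x)
  rw [map_add, map_smul, map_smul, smul_eq_mul, smul_eq_mul] at h1
  rw [h1, _root_.add_apply, _root_.smul_apply, _root_.smul_apply, smul_eq_mul, smul_eq_mul]
  ring

/-- dimension two: the kernel of a functional `e ≠ 0` is a line -/
private theorem TwoLine_ker {v : Fin 2 → X} {f : Fin 2 → X →L[ℂ] ℂ}
    (hsp : ∀ x : X, x = f 0 x • v 0 + f 1 x • v 1) {e : X →L[ℂ] ℂ} (he : e ≠ 0) {w y : X}
    (hw : w ≠ 0) (hew : e w = 0) (hey : e y = 0) : ∃ c : ℂ, y = c • w := by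
  have e1 : e (v 0) * f 0 w + e (v 1) * f 1 w = 0 := by
    have h1 := congrArg e (hsp w)
    rw [map_add, map_smul, map_smul, smul_eq_mul, smul_eq_mul, hew] at h1
    linear_combination -h1
  have e2 : e (v 0) * f 0 y + e (v 1) * f 1 y = 0 := by
    have h1 := congrArg e (hsp y)
    rw [map_add, map_smul, map_smul, smul_eq_mul, smul_eq_mul, hey] at h1
    linear_combination -h1
  have hD : f 0 w * f 1 y - f 1 w * f 0 y = 0 := by
    by_cases h0 : e (v 0) = 0
    · have h1 : e (v 1) ≠ 0 := by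
        intro h1
        apply he
        ext x
        have h2 := congrArg e (hsp x)
        rw [map_add, map_smul, map_smul, h0, h1, smul_zero, smul_zero, add_zero] at h2
        exact h2
      have h2 : e (v 1) * (f 0 w * f 1 y - f 1 w * f 0 y) = 0 := by
        linear_combination (-(f 0 y)) * e1 + (f 0 w) * e2
      exact (mul_eq_zero.1 h2).resolve_left h1
    · have h2 : e (v 0) * (f 0 w * f 1 y - f 1 w * f 0 y) = 0 := by
        linear_combination (f 1 y) * e1 - (f 1 w) * e2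
      exact (mul_eq_zero.1 h2).resolve_left h0
  by_cases h0 : f 0 w = 0
  · have h1 : f 1 w ≠ 0 := by
      intro h1
      apply hw
      rw [hsp w, h0, h1, zero_smul, zero_smul, add_zero]
    refine ⟨f 1 y / f 1 w, ?_⟩
    have h3 : f 0 y = f 1 y / f 1 w * f 0 w := by
      field_simp
      linear_combination -hD
    have h4 : f 1 y = f 1 y / f 1 w * f 1 w := by
      field_simp
    calc y = f 0 y • v 0 + f 1 y • v 1 := hsp y
      _ = (f 1 y / f 1 w * f 0 w) • v 0 + (f 1 y / f 1 w * f 1 w) • v 1 := by rw [← h3, ← h4]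
      _ = (f 1 y / f 1 w) • (f 0 w • v 0 + f 1 w • v 1) := by
        rw [smul_add, smul_smul, smul_smul]
      _ = (f 1 y / f 1 w) • w := by rw [← hsp w]
  · refine ⟨f 0 y / f 0 w, ?_⟩
    have h3 : f 0 y = f 0 y / f 0 w * f 0 w := by
      field_simp
    have h4 : f 1 y = f 0 y / f 0 w * f 1 w := by
      field_simp
      linear_combination hD
    calc y = f 0 y • v 0 + f 1 y • v 1 := hsp y
      _ = (f 0 y / f 0 w * f 0 w) • v 0 + (f 0 y / f 0 w * f 1 w) • v 1 := by rw [← h3, ← h4]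
      _ = (f 0 y / f 0 w) • (f 0 w • v 0 + f 1 w • v 1) := by
        rw [smul_add, smul_smul, smul_smul]
      _ = (f 0 y / f 0 w) • w := by rw [← hsp w]

private theorem TwoLine_one {h : X →L[ℂ] ℂ} (hh : h ≠ 0) : ∃ u : X, h u = 1 := by
  obtain ⟨v, hv⟩ : ∃ v, h v ≠ 0 := by
    by_contra hcon
    push Not at hcon
    exact hh (ContinuousLinearMap.ext hcon)
  exact ⟨(h v)⁻¹ • v, by rw [map_smul, smul_eq_mul, inv_mul_cancel₀ hv]⟩

private theorem TwoLine_f0 {v : Fin 2 → X} {f : Fin 2 → X →L[ℂ] ℂ}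
    (hf : ∀ i j, f i (v j) = if i = j then 1 else 0) : f 0 ≠ 0 ∧ ¬ ∃ c : ℂ, f 1 = c • f 0 := by
  have h00 : f 0 (v 0) = 1 := by rw [hf]; rfl
  have h01 : f 0 (v 1) = 0 := by rw [hf]; rfl
  have h11 : f 1 (v 1) = 1 := by rw [hf]; rfl
  constructor
  · intro h
    rw [h] at h00
    exact zero_ne_one h00
  · rintro ⟨c, hc⟩
    rw [hc, _root_.smul_apply, h01, smul_zero] at h11
    exact zero_ne_one h11

private theorem TwoLine_v0 {v : Fin 2 → X} {f : Fin 2 → X →L[ℂ] ℂ}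
    (hf : ∀ i j, f i (v j) = if i = j then 1 else 0) : v 0 ≠ 0 ∧ ¬ ∃ c : ℂ, v 1 = c • v 0 := by
  have h00 : f 0 (v 0) = 1 := by rw [hf]; rfl
  have h10 : f 1 (v 0) = 0 := by rw [hf]; rfl
  have h11 : f 1 (v 1) = 1 := by rw [hf]; rfl
  constructor
  · intro h
    rw [h, map_zero] at h00
    exact zero_ne_one h00
  · rintro ⟨c, hc⟩
    rw [hc, map_smul, h10, smul_zero] at h11
    exact zero_ne_one h11

theorem Two_row [CompleteSpace X] {v : Fin 2 → X} {f : Fin 2 → X →L[ℂ] ℂ}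
    (hf : ∀ i j, f i (v j) = if i = j then 1 else 0) (hsp : ∀ x : X, x = f 0 x • v 0 + f 1 x • v 1)
    {w : X} (hw : w ≠ 0) : HLine 2 {T : X →L[ℂ] X | ∃ h : X →L[ℂ] ℂ, h ≠ 0 ∧ T = ten w h} := by
  obtain ⟨hf0, hf1⟩ := TwoLine_f0 hf
  have hf1' : f 1 ≠ 0 := by
    intro h
    exact hf1 ⟨0, by rw [h, dual_zero_smul]⟩
  have hprop : ∀ {h1 h2 : X →L[ℂ] ℂ} {c : ℂ}, ten w h2 = c • ten w h1 ↔ h2 = c • h1 := by
    intro h1 h2 c
    constructor
    · intro h
      obtain ⟨η, hη⟩ := SeparatingDual.exists_eq_one (R := ℂ) hw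
      ext y
      have h3 := congrArg (fun T : X →L[ℂ] X => η (T y)) h
      simp only [_root_.smul_apply, ten_apply, map_smul, hη, smul_eq_mul, mul_one] at h3
      rw [_root_.smul_apply, smul_eq_mul]
      exact h3
    · rintro rfl
      rw [ten_smul_right]
  refine ⟨?_, ?_, ?_⟩
  · refine ⟨ten w (f 0), ⟨f 0, hf0, rfl⟩, ten w (f 1), ⟨f 1, hf1', rfl⟩, ?_⟩
    rintro ⟨c, hc⟩
    exact hf1 ⟨c, hprop.1 hc⟩
  · rintro A ⟨h1, n1, rfl⟩ B ⟨h2, n2, rfl⟩ hAB C
    have hp : ¬ ∃ c : ℂ, h2 = c • h1 := fun ⟨c, hc⟩ => hAB ⟨c, hprop.2 hc⟩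
    constructor
    · rintro ⟨h, n, rfl⟩
      refine ⟨fun h0 => ?_, ?_⟩
      · rcases ten_eq_zero_iff.1 h0 with h3 | h3
        · exact hw h3
        · exact n h3
      · obtain ⟨a, b, rfl⟩ := TwoLine_span ⟨_, _, TwoLine_fun hsp h1⟩ ⟨_, _, TwoLine_fun hsp h2⟩
          ⟨_, _, TwoLine_fun hsp h⟩ n1 hp
        intro S hA hB
        rw [TwoLine_prp] at hA hB ⊢
        rw [_root_.add_apply, _root_.smul_apply,
          _root_.smul_apply, hA, hB, smul_zero, smul_zero, add_zero]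
    · rintro ⟨hC, hD⟩
      obtain ⟨e, hedef⟩ : ∃ e : X →L[ℂ] ℂ, e = f 1 w • f 0 + (-(f 0 w)) • f 1 := ⟨_, rfl⟩
      have hew : e w = 0 := by
        rw [hedef, _root_.add_apply, _root_.smul_apply, _root_.smul_apply, smul_eq_mul,
          smul_eq_mul]
        ring
      have he : e ≠ 0 := by
        intro h0
        have h00 : f 0 (v 0) = 1 := by rw [hf]; rfl
        have h01 : f 0 (v 1) = 0 := by rw [hf]; rfl
        have h10 : f 1 (v 0) = 0 := by rw [hf]; rfl
        have h11 : f 1 (v 1) = 1 := by rw [hf]; rfl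
        have e0 := congrArg (fun T : X →L[ℂ] ℂ => T (v 0)) (hedef.symm.trans h0)
        have e1 := congrArg (fun T : X →L[ℂ] ℂ => T (v 1)) (hedef.symm.trans h0)
        simp only [_root_.add_apply, _root_.smul_apply, smul_eq_mul, h00, h01, h10, h11, mul_one,
          mul_zero, add_zero, zero_add, _root_.zero_apply] at e0 e1
        apply hw
        rw [hsp w, e0, neg_eq_zero.1 e1, zero_smul, zero_smul, add_zero]
      obtain ⟨u, hu⟩ := TwoLine_one he
      have hne : ∀ x, e x ≠ 0 → e (C x) = 0 := fun x hx =>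
        TwoLine_dep hD x e hx (by rw [ten_apply, map_smul, hew, smul_zero])
          (by rw [ten_apply, map_smul, hew, smul_zero])
      have hall : ∀ x, e (C x) = 0 := by
        intro x
        by_cases hx : e x = 0
        · have h3 : e (C (x + u)) = 0 := hne _ (by rw [map_add, hx, hu, zero_add]; exact one_ne_zero)
          have h4 : e (C u) = 0 := hne _ (by rw [hu]; exact one_ne_zero)
          rw [map_add, map_add, h4, add_zero] at h3
          exact h3
        · exact hne x hx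
      obtain ⟨h, hh⟩ := Basic_ten_of_local hw fun x => TwoLine_ker hsp he hw hew (hall x)
      refine ⟨h, ?_, hh⟩
      rintro rfl
      apply hC
      rw [hh]
      exact ten_eq_zero_iff.2 (Or.inr rfl)
  · intro S
    obtain ⟨a, b, hne, h0⟩ := TwoLine_comb hf0 hf1 (f 0 ((S ^ 2) w)) (f 1 ((S ^ 2) w))
    refine ⟨ten w (a • f 0 + b • f 1), ⟨a • f 0 + b • f 1, hne, rfl⟩, ?_⟩
    rw [TwoLine_prp, _root_.add_apply, _root_.smul_apply,
      _root_.smul_apply, smul_eq_mul, smul_eq_mul]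
    exact h0

theorem Two_col [CompleteSpace X] {v : Fin 2 → X} {f : Fin 2 → X →L[ℂ] ℂ}
    (hf : ∀ i j, f i (v j) = if i = j then 1 else 0) (hsp : ∀ x : X, x = f 0 x • v 0 + f 1 x • v 1)
    {h : X →L[ℂ] ℂ} (hh : h ≠ 0) : HLine 2 {T : X →L[ℂ] X | ∃ w : X, w ≠ 0 ∧ T = ten w h} := by
  classical
  obtain ⟨hv0, hv1⟩ := TwoLine_v0 hf
  have hv1' : v 1 ≠ 0 := by
    intro h
    exact hv1 ⟨0, by rw [h, zero_smul]⟩
  obtain ⟨u1, hu1⟩ := TwoLine_one hh
  have hprop : ∀ {z1 z2 : X} {c : ℂ}, ten z2 h = c • ten z1 h ↔ z2 = c • z1 := by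
    intro z1 z2 c
    constructor
    · intro h2
      have h3 := congrArg (fun T : X →L[ℂ] X => T u1) h2
      simp only [_root_.smul_apply, ten_apply, hu1, one_smul] at h3
      exact h3
    · rintro rfl
      rw [ten_smul_left]
  have hvec : ∀ z : X, ∃ a b : ℂ, z = a • v 0 + b • v 1 := fun z => ⟨_, _, hsp z⟩
  refine ⟨?_, ?_, ?_⟩
  · refine ⟨ten (v 0) h, ⟨v 0, hv0, rfl⟩, ten (v 1) h, ⟨v 1, hv1', rfl⟩, ?_⟩
    rintro ⟨c, hc⟩
    exact hv1 ⟨c, hprop.1 hc⟩
  · rintro A ⟨z1, n1, rfl⟩ B ⟨z2, n2, rfl⟩ hAB C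
    have hp : ¬ ∃ c : ℂ, z2 = c • z1 := fun ⟨c, hc⟩ => hAB ⟨c, hprop.2 hc⟩
    constructor
    · rintro ⟨z, n, rfl⟩
      refine ⟨fun h0 => ?_, ?_⟩
      · rcases ten_eq_zero_iff.1 h0 with h3 | h3
        · exact n h3
        · exact hh h3
      · obtain ⟨a, b, rfl⟩ := TwoLine_span (hvec z1) (hvec z2) (hvec z) n1 hp
        intro S hA hB
        rw [TwoLine_prp] at hA hB ⊢
        rw [map_add, map_smul, map_smul, map_add, map_smul, map_smul, hA, hB, smul_zero,
          smul_zero, add_zero]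
    · rintro ⟨hC, hD⟩
      obtain ⟨a, b, hu0, hab⟩ := TwoLine_comb hv0 hv1 (h (v 0)) (h (v 1))
      obtain ⟨u, hu⟩ : ∃ u, u = a • v 0 + b • v 1 := ⟨_, rfl⟩
      rw [← hu] at hu0
      have hhu : h u = 0 := by
        rw [hu, map_add, map_smul, map_smul, smul_eq_mul, smul_eq_mul]
        exact hab
      have hCu : C u = 0 := by
        by_contra hcon
        obtain ⟨e, -, he⟩ := exists_gen (0 : X) {u, C u} (by
          intro b hb
          rintro ⟨c, hc⟩
          rw [smul_zero] at hc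
          rcases Finset.mem_insert.1 hb with h3 | h3
          · exact hu0 (h3 ▸ hc)
          · exact hcon ((Finset.mem_singleton.1 h3) ▸ hc))
        exact he (C u) (by simp) (TwoLine_dep hD u e (he u (by simp))
          (by rw [ten_apply, hhu, zero_smul, map_zero]) (by rw [ten_apply, hhu, zero_smul, map_zero]))
      have h3 : ∀ y, h y = 0 → C y = 0 := by
        intro y hy
        obtain ⟨c, hc⟩ := TwoLine_ker hsp hh hu0 hhu hy
        rw [hc, map_smul, hCu, smul_zero]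
      have h4 : C = ten (C u1) h := by
        ext y
        have h5 : C (y - h y • u1) = 0 := h3 _ (by
          rw [map_sub, map_smul, hu1, smul_eq_mul, mul_one, sub_self])
        rw [map_sub, map_smul, sub_eq_zero] at h5
        rw [ten_apply, h5]
      refine ⟨C u1, fun h0 => ?_, h4⟩
      apply hC
      rw [h4, h0]
      exact ten_eq_zero_iff.2 (Or.inl rfl)
  · intro S
    obtain ⟨a, b, hne, h0⟩ := TwoLine_comb hv0 hv1 (h ((S ^ 2) (v 0))) (h ((S ^ 2) (v 1)))
    refine ⟨ten (a • v 0 + b • v 1) h, ⟨a • v 0 + b • v 1, hne, rfl⟩, ?_⟩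
    rw [TwoLine_prp, map_add, map_smul, map_smul, map_add, map_smul, map_smul, smul_eq_mul,
      smul_eq_mul]
    exact h0

end Pool.Agent.H.MP_bb4c62_an.QT
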