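import Pool.Agent.H.MP_bb4c62_an.QT.Test

/-!
# Module QT/TwoPar

Dimension two: `(v 0, v 1)` is a basis, `(f 0, f 1)` the dual basis. Tests (`Two_test`): for `g x ≠ 0` there is `R` with
`Prp 2 T R ↔ g (T x) = 0` for all `T`. So for `g x ≠ 0`: `g (T x) = 0 ↔ g (S x) = 0` (*).

Claim: `S x` is a multiple of `T x` for every `x` (then `mul_of_local`). Suppose not; then `S x ≠ 0` and `x ≠ 0`. If
`x = k • T x`, then `x` is not a multiple of `S x`, so there is `g` with `g (S x) = 0`, `g x ≠ 0` (`exists_gen`), and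
`g x = k * g (T x) = 0` by (*). Otherwise there is `g` with `g (T x) = 0`, `g x ≠ 0`, `g (S x) ≠ 0` (`exists_gen`),
a contradiction to (*). (The dimension is not used.)
-/

namespace Pool.Agent.H.MP_bb4c62_an.QT

open Pool.Agent.H.MP_bb4c62_an.helper6.NL
open Pool.Agent.H.MP_bb4c62_an.helper6.Perturb
open Pool.Agent.H.MP_bb4c62_an.helper6.Gadgets
open Pool.Agent.H.MP_bb4c62_an.QP

variable {X : Type*} [NormedAddCommGroup X] [NormedSpace ℂ X]

theorem Two_par [CompleteSpace X] {v : Fin 2 → X} {f : Fin 2 → X →L[ℂ] ℂ}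
    (hf : ∀ i j, f i (v j) = if i = j then 1 else 0) (hsp : ∀ x : X, x = f 0 x • v 0 + f 1 x • v 1)
    (T S : X →L[ℂ] X) (hT : T ≠ 0) (hS : S ≠ 0) (h : ∀ R, Prp 2 T R ↔ Prp 2 S R) :
    ∃ c : ℂ, S = c • T := by
  classical
  have hst : ∀ (x : X) (g : X →L[ℂ] ℂ), g x ≠ 0 → (g (T x) = 0 ↔ g (S x) = 0) := by
    intro x g hx
    obtain ⟨R, -, hR⟩ := Two_test hx
    rw [← hR T, ← hR S]
    exact h R
  have hloc : ∀ x, ∃ c : ℂ, S x = c • T x := by
    intro x
    by_contra hcon
    have hSx : S x ≠ 0 := fun h0 => hcon ⟨0, by rw [h0, zero_smul]⟩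
    have hx0 : x ≠ 0 := by
      intro h0
      apply hSx
      rw [h0, map_zero]
    by_cases hk : ∃ k : ℂ, x = k • T x
    · obtain ⟨k, hk⟩ := hk
      obtain ⟨g, hg1, hg2⟩ := exists_gen (S x) {x} (by
        intro b hb
        rw [Finset.mem_singleton] at hb
        rw [hb]
        rintro ⟨l, hl⟩
        have hl0 : l ≠ 0 := by
          intro h0
          rw [h0, zero_smul] at hl
          exact hx0 hl
        apply hcon
        refine ⟨l⁻¹ * k, ?_⟩
        rw [mul_smul, ← hk]
        conv_rhs => rw [hl]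
        rw [smul_smul, inv_mul_cancel₀ hl0, one_smul])
      have hg3 := hg2 x (Finset.mem_singleton_self x)
      have hg4 := (hst x g hg3).2 hg1
      apply hg3
      rw [hk, map_smul, hg4, smul_zero]
    · obtain ⟨g, hg1, hg2⟩ := exists_gen (T x) {x, S x} (by
        intro b hb
        rw [Finset.mem_insert, Finset.mem_singleton] at hb
        rcases hb with hb | hb
        · rw [hb]
          exact hk
        · rw [hb]
          exact hcon)
      have hg3 := hg2 x (Finset.mem_insert_self x {S x})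
      have hg4 := hg2 (S x) (Finset.mem_insert_of_mem (Finset.mem_singleton_self (S x)))
      exact hg4 ((hst x g hg3).1 hg1)
  obtain ⟨c, hc⟩ := mul_of_local (T : X →ₗ[ℂ] X) (S : X →ₗ[ℂ] X) hloc
  exact ⟨c, ContinuousLinearMap.ext hc⟩

end Pool.Agent.H.MP_bb4c62_an.QT
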