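import Pool.Agent.H.MP_bb4c62_an.QT.TwoSmall
import Pool.Agent.H.MP_bb4c62_an.QT.TwoPar
import Pool.Agent.H.MP_bb4c62_an.QT.TwoLine
import Pool.Agent.H.MP_bb4c62_an.QT.TwoAdj

/-!
# Module QT/Two: `Good X 2` in every dimension
-/

namespace Pool.Agent.H.MP_bb4c62_an.QT

open Pool.Agent.H.MP_bb4c62_an.helper6.NL
open Pool.Agent.H.MP_bb4c62_an.helper6.Perturb
open Pool.Agent.H.MP_bb4c62_an.helper6.Gadgets
open Pool.Agent.H.MP_bb4c62_an.QP

variable {X : Type*} [NormedAddCommGroup X] [NormedSpace ℂ X]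

theorem good_two [CompleteSpace X] {v : Fin 2 → X} {f : Fin 2 → X →L[ℂ] ℂ}
    (hf : ∀ i j, f i (v j) = if i = j then 1 else 0) (hsp : ∀ x : X, x = f 0 x • v 0 + f 1 x • v 1) :
    Good X 2 where
  zero := Two_zero
  par := Two_par hf hsp
  adj := Two_adj hf hsp (fun _ hw => Two_row hf hsp hw) (fun _ hh => Two_col hf hsp hh)
  line := by
    rintro A B hA hB hAB (⟨w, h1, h2, rfl, rfl⟩ | ⟨w, z, h1, rfl, rfl⟩)
    · rw [Ne, ten_eq_zero_iff, not_or] at hA hB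
      exact ⟨_, Two_row hf hsp hA.1, ⟨h1, hA.2, rfl⟩, ⟨h2, hB.2, rfl⟩⟩
    · rw [Ne, ten_eq_zero_iff, not_or] at hA hB
      exact ⟨_, Two_col hf hsp hA.2, ⟨w, hA.1, rfl⟩, ⟨z, hB.1, rfl⟩⟩
  self := by
    intro x f
    by_cases h : f x = 0
    · refine iff_of_true ?_ h
      rw [Prp, Rich_sq, h, zero_smul, mul_zero]
      exact qn_zero
    · rw [Prp, Rich_sq, mul_smul_comm, Rich_smul_iff h, mul_ten, ten_apply, qn_ten_iff, map_smul,
        smul_eq_mul, mul_self_eq_zero]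
  ten := by
    intro T x f hf
    rw [Prp, Rich_sq, mul_smul_comm, Rich_smul_iff hf, mul_ten, qn_ten_iff]

end Pool.Agent.H.MP_bb4c62_an.QT
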