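import Pool.Agent.H.MP_bb4c62_an.QT.Good

/-!
# Module QT/Test: the tests by operators of rank one which are squares
-/

namespace Pool.Agent.H.MP_bb4c62_an.QT

open Pool.Agent.H.MP_bb4c62_an.helper6.NL
open Pool.Agent.H.MP_bb4c62_an.helper6.Perturb
open Pool.Agent.H.MP_bb4c62_an.helper6.Gadgets
open Pool.Agent.H.MP_bb4c62_an.QP

variable {X : Type*} [NormedAddCommGroup X] [NormedSpace ℂ X]

/-- `ten x g` with `g x ≠ 0` is a square, and tests `g (T x) = 0` -/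
theorem Two_test [CompleteSpace X] {x : X} {g : X →L[ℂ] ℂ} (hx : g x ≠ 0) :
    ∃ S : X →L[ℂ] X, S ^ 2 = ten x g ∧ ∀ T, Prp 2 T S ↔ g (T x) = 0 := by
  obtain ⟨s, hs⟩ : ∃ s : ℂ, s ^ 2 = g x := IsAlgClosed.exists_pow_nat_eq _ (by norm_num)
  have hs0 : s ≠ 0 := by
    rintro rfl
    apply hx
    rw [← hs]
    ring
  have h1 : (s⁻¹ • ten x g) ^ 2 = ten x g := by
    rw [smul_pow, Rich_sq, smul_smul, ← hs, inv_pow, inv_mul_cancel₀ (pow_ne_zero 2 hs0), one_smul]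
  exact ⟨_, h1, fun T => HLine_prp h1⟩

/-- invertible operators in dimension two are squares; `Prp 2 U S` says that
`U * (ten a g + ten a' g')` is quasinilpotent -/
theorem Two_inv [CompleteSpace X] {a a' : X} {g g' : X →L[ℂ] ℂ}
    (h : g a * g' a' - g a' * g' a ≠ 0) : ∃ S : X →L[ℂ] X, ∀ U : X →L[ℂ] X,
      Prp 2 U S ↔ QN (ten (U a) g + ten (U a') g') := by
  obtain ⟨S, hS⟩ := Rich_two_two a a' g g' h
  refine ⟨S, fun U => ?_⟩
  unfold Prp
  rw [hS, mul_add, mul_ten, mul_ten]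

end Pool.Agent.H.MP_bb4c62_an.QT
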