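import Pool.Agent.H.MP_bb4c62_an.QT.Test

/-!
# Module QT/TwoSmall

`Two_zero`: if `T x ≠ 0`, take `g` with `g x ≠ 0`, `g (T x) ≠ 0` (`exists_gen 0`) and `Two_test`.

`good_small` (dimension at most one): `Rich X 2`, then `good_of_rich`. `one`: if `g x ≠ 0`, `Two_test`; if `g x = 0` then
`x = 0` or `g = 0` (every two vectors are dependent), `S = 0`. `two` is `Rich_two_two`; `self` and `ten` as in the proof
of `rich_two` in QP/Rich.
-/

namespace Pool.Agent.H.MP_bb4c62_an.QT

open Pool.Agent.H.MP_bb4c62_an.helper6.NL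
open Pool.Agent.H.MP_bb4c62_an.helper6.Perturb
open Pool.Agent.H.MP_bb4c62_an.helper6.Gadgets
open Pool.Agent.H.MP_bb4c62_an.QP

variable {X : Type*} [NormedAddCommGroup X] [NormedSpace ℂ X]

theorem Two_zero [CompleteSpace X] (T : X →L[ℂ] X) : (∀ S, Prp 2 T S) ↔ T = 0 := by
  classical
  constructor
  · intro h
    by_contra hT
    obtain ⟨x, hx⟩ : ∃ x, T x ≠ 0 := by
      by_contra hcon
      push Not at hcon
      exact hT (by ext x; exact hcon x)
    have hx0 : x ≠ 0 := by
      rintro rfl
      exact hx (map_zero T)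
    obtain ⟨g, -, hg⟩ := exists_gen (0 : X) {x, T x} (by
      intro b hb
      rintro ⟨c, hc⟩
      rw [smul_zero] at hc
      rcases Finset.mem_insert.mp hb with h1 | h1
      · exact hx0 (h1.symm.trans hc)
      · exact hx ((Finset.mem_singleton.mp h1).symm.trans hc))
    obtain ⟨S, -, hS⟩ := Two_test (hg x (Finset.mem_insert_self _ _))
    exact hg (T x) (Finset.mem_insert_of_mem (Finset.mem_singleton_self _)) ((hS T).mp (h S))
  · rintro rfl S
    unfold Prp
    rw [zero_mul]
    exact qn_zero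

theorem good_small [CompleteSpace X] (h2 : ¬ ∃ v : Fin 2 → X, LinearIndependent ℂ v) :
    Good X 2 := by
  refine good_of_rich ⟨?_, Rich_two_two, ?_, ?_⟩
  · intro x g
    by_cases hgx : g x = 0
    · have h : x = 0 ∨ g = 0 := by
        by_contra hcon
        push Not at hcon
        obtain ⟨hx, hg⟩ := hcon
        obtain ⟨p, hp⟩ := exists_ap hg
        refine h2 ⟨![x, p], (LinearIndependent.pair_iff' hx).mpr fun a ha => ?_⟩
        rw [← ha, map_smul, hgx, smul_zero] at hp
        exact zero_ne_one hp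
      refine ⟨0, ?_⟩
      rw [ten_eq_zero_iff.mpr h]
      exact zero_pow two_ne_zero
    · obtain ⟨S, hS, -⟩ := Two_test hgx
      exact ⟨S, hS⟩
  · intro x f
    by_cases h : f x = 0
    · refine iff_of_true ?_ h
      rw [Prp, Rich_sq, h, zero_smul, mul_zero]
      exact qn_zero
    · rw [Prp, Rich_sq, mul_smul_comm, Rich_smul_iff h, mul_ten, ten_apply, qn_ten_iff, map_smul,
        smul_eq_mul, mul_self_eq_zero]
  · intro T x f hf
    rw [Prp, Rich_sq, mul_smul_comm, Rich_smul_iff hf, mul_ten, qn_ten_iff]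

end Pool.Agent.H.MP_bb4c62_an.QT
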